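import Mathlib

set_option autoImplicit false

open Polynomial

namespace Pool.Agent.R521.PI

section alg

variable {R : Type*} [CommRing R] (p : ℕ) [Fact p.Prime] [CharP R p]

/-- The additive map `y ↦ y ^ p - c ^ (p - 1) y` in characteristic `p`. -/
def M (c : R) : R →+ R where
  toFun y := y ^ p - c ^ (p - 1) * y
  map_zero' := by simp [(Fact.out : p.Prime).ne_zero]
  map_add' x y := by rw [add_pow_char]; ring

theorem M_apply (c y : R) : M p c y = y ^ p - c ^ (p - 1) * y := rfl

theorem M_self (c : R) : M p c c = 0 := by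
  rw [M_apply, ← pow_succ, Nat.sub_add_cancel (Fact.out : p.Prime).one_le, sub_self]

theorem M_natMul (c : R) (l : ℕ) (y : R) : M p c (l * y) = l * M p c y := by
  rw [← nsmul_eq_mul, map_nsmul, nsmul_eq_mul]

theorem M_nat_self (c : R) (l : ℕ) : M p c (l * c) = 0 := by
  rw [M_natMul, M_self, mul_zero]

/-- `s = t ^ p - t`. -/
def sv (t : R) : R := M p 1 t

/-- `s₁ = M_b s`. -/
def s1v (t b : R) : R := M p b (sv p t)

/-- `e = s ^ p (b + b ^ p)`. -/
def ev (t b : R) : R := sv p t ^ p * (b + b ^ p)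

/-- `Ψ = M_{s₁} ∘ M_b ∘ M_1`. -/
def Psi (t b : R) : R →+ R := (M p (s1v p t b)).comp ((M p b).comp (M p 1))

theorem Psi_apply (t b x : R) : Psi p t b x = M p (s1v p t b) (M p b (M p 1 x)) := rfl

/-- `X = M_{s₁} (M_b a)`. -/
def Xv (t a b : R) : R := M p (s1v p t b) (M p b a)

/-- `Y = s₁ ^ p b + M_{s₁} e`. -/
def Yv (t b : R) : R := s1v p t b ^ p * b + M p (s1v p t b) (ev p t b)

/-- The polynomial map `D`. -/
def Dv (t a b x : R) : R := M p (Xv p t a b + Yv p t b) (Psi p t b x - Xv p t a b)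

theorem Psi_root_X (t a b γ : R) (l : ℕ) (h : γ ^ p - γ = a + l * b) :
    Psi p t b γ = Xv p t a b := by
  have h1 : M p 1 γ = a + l * b := by rw [M_apply]; simpa using h
  rw [Psi_apply, h1, map_add (M p b), M_nat_self, add_zero, Xv]

theorem Psi_root_Y (t b β : R) (h : β ^ p - β = b) :
    Psi p t b (t * β) = Yv p t b := by
  have hβ : β ^ p = β + b := by rw [← h]; ring
  have h1 : M p 1 (t * β) = sv p t * β + t ^ p * b := by
    rw [M_apply, mul_pow, hβ, sv, M_apply]; ring
  have hs : sv p t ^ p = (t ^ p) ^ p - t ^ p := by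
    rw [sv, M_apply, one_pow, one_mul, sub_pow_char]
  have hp1 : p - 1 + 1 = p := Nat.sub_add_cancel (Fact.out : p.Prime).one_le
  have h2 : M p b (sv p t * β + t ^ p * b) = s1v p t b * β + ev p t b := by
    rw [map_add, M_apply, M_apply, mul_pow, mul_pow, hβ, s1v, M_apply, ev]
    have e1 : b ^ (p - 1) * (t ^ p * b) = t ^ p * b ^ p := by
      calc b ^ (p - 1) * (t ^ p * b) = t ^ p * (b ^ (p - 1) * b) := by ring
        _ = t ^ p * b ^ p := by rw [← pow_succ, hp1]
    rw [e1, hs]
    ring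
  have h3 : M p (s1v p t b) (s1v p t b * β) = s1v p t b ^ p * b := by
    rw [M_apply, mul_pow, hβ]
    have e1 : s1v p t b ^ (p - 1) * (s1v p t b * β) = s1v p t b ^ p * β := by
      rw [← mul_assoc, ← pow_succ, hp1]
    rw [e1]; ring
  rw [Psi_apply, h1, h2, map_add, h3, Yv]

theorem D_root_X (t a b γ : R) (l : ℕ) (h : γ ^ p - γ = a + l * b) :
    Dv p t a b γ = 0 := by
  rw [Dv, Psi_root_X p t a b γ l h, sub_self, map_zero]

theorem D_root_Y (t a b β : R) (h : β ^ p - β = b) :
    Dv p t a b (-(t * β)) = 0 := by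
  rw [Dv, map_neg, Psi_root_Y p t b β h,
    show -Yv p t b - Xv p t a b = -(Xv p t a b + Yv p t b) by ring, map_neg, M_self, neg_zero]

end alg

section maps

variable {R Q : Type*} [CommRing R] [CommRing Q] (p : ℕ) [Fact p.Prime] [CharP R p] [CharP Q p]
  (f : R →+* Q)

theorem map_M (c y : R) : f (M p c y) = M p (f c) (f y) := by
  simp [M_apply]

theorem map_D (t a b x : R) : f (Dv p t a b x) = Dv p (f t) (f a) (f b) (f x) := by
  simp only [Dv, Xv, Yv, Psi_apply, s1v, ev, sv, map_M, map_add, map_sub, map_mul, map_pow,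
    map_one]

end maps

/-- In a domain of characteristic `p`, `z ^ p = w ^ (p - 1) z` forces `z = j w` with `j` an
integer. -/
theorem dom_root {R : Type*} [CommRing R] [IsDomain R] (p : ℕ) [Fact p.Prime] [CharP R p]
    {w z : R} (h : M p w z = 0) : ∃ j : ℕ, z = j * w := by
  have hp : p.Prime := Fact.out
  by_cases hw : w = 0
  · rw [M_apply, hw, zero_pow (Nat.sub_ne_zero_of_lt hp.one_lt), zero_mul, sub_zero] at h
    exact ⟨0, by rw [eq_zero_of_pow_eq_zero h, hw]; simp⟩
  let K := FractionRing R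
  have hinj : Function.Injective (algebraMap R K) := IsFractionRing.injective R K
  have : CharP K p := charP_of_injective_algebraMap hinj p
  have hw' : algebraMap R K w ≠ 0 := by
    intro h0; exact hw (hinj (by rw [h0, map_zero]))
  have h1 : (algebraMap R K z / algebraMap R K w) ^ p = algebraMap R K z / algebraMap R K w := by
    rw [M_apply, sub_eq_zero] at h
    have h2 := congrArg (algebraMap R K) h
    rw [map_pow, map_mul, map_pow] at h2
    rw [div_pow, h2]
    have e : algebraMap R K w ^ p = algebraMap R K w ^ (p - 1) * algebraMap R K w := by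
      rw [← pow_succ, Nat.sub_add_cancel hp.one_le]
    rw [e, mul_div_mul_left _ _ (pow_ne_zero _ hw')]
  have h3 := (Subfield.mem_bot_iff_pow_eq_self K p).2 h1
  rw [← ZMod.fieldRange_castHom_eq_bot p] at h3
  obtain ⟨j, hj⟩ := h3
  refine ⟨j.val, hinj ?_⟩
  rw [map_mul, map_natCast]
  have h4 : (ZMod.castHom (dvd_refl p) K) j = ((j.val : ℕ) : K) := by
    rw [ZMod.castHom_apply, ZMod.natCast_val]
  rw [h4] at hj
  rw [hj, div_mul_cancel₀ _ hw']

end Pool.Agent.R521.PI
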