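import Mathlib
import Pool.Agent.R521.PI.Alg

set_option autoImplicit false

open Polynomial

namespace Pool.Agent.R521.PI

variable {F : Type*} [Field F] (p : ℕ) [Fact p.Prime] [CharP F p]

/-- Degree obstruction: `m ^ p - c ^ (p - 1) m = r` is impossible if the degree of `r` exceeds
`p` times the degree of `c` and is not divisible by `p`. -/
theorem deg_obstruction {c m r : F[X]} (h : M p c m = r) (h1 : p * c.natDegree < r.natDegree)
    (h2 : ¬ p ∣ r.natDegree) : False := by
  have hp : p.Prime := Fact.out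
  have hp1 : p - 1 + 1 = p := Nat.sub_add_cancel hp.one_le
  rw [M_apply] at h
  rcases le_or_gt m.natDegree c.natDegree with hd | hd
  · have e1 : (m ^ p - c ^ (p - 1) * m).natDegree ≤ p * c.natDegree := by
      refine (natDegree_sub_le _ _).trans (max_le ?_ ?_)
      · rw [natDegree_pow]; exact Nat.mul_le_mul_left _ hd
      · refine natDegree_mul_le.trans ?_
        rw [natDegree_pow]
        calc (p - 1) * c.natDegree + m.natDegree ≤ (p - 1) * c.natDegree + c.natDegree := by omega
          _ = (p - 1 + 1) * c.natDegree := by ring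
          _ = p * c.natDegree := by rw [hp1]
    rw [h] at e1
    omega
  · have e2 : (c ^ (p - 1) * m).natDegree < (m ^ p).natDegree := by
      refine natDegree_mul_le.trans_lt ?_
      rw [natDegree_pow, natDegree_pow]
      calc (p - 1) * c.natDegree + m.natDegree < (p - 1) * m.natDegree + m.natDegree := by
            have : 0 < p - 1 := Nat.sub_pos_of_lt hp.one_lt
            have := Nat.mul_lt_mul_of_pos_left hd this
            omega
        _ = (p - 1 + 1) * m.natDegree := by ring
        _ = p * m.natDegree := by rw [hp1]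
    have e3 := natDegree_sub_eq_left_of_natDegree_lt e2
    rw [h, natDegree_pow] at e3
    exact h2 ⟨_, e3⟩

/-- `b = t ^ (p + 1)`. -/
noncomputable def bS (F : Type*) [Field F] (p : ℕ) : F[X] := X ^ (p + 1)

theorem natDegree_sv : (sv p (X : F[X])).natDegree = p := by
  have hp : p.Prime := Fact.out
  rw [sv, M_apply, one_pow, one_mul,
    natDegree_sub_eq_left_of_natDegree_lt (by rw [natDegree_X_pow, natDegree_X]; exact hp.one_lt),
    natDegree_X_pow]

theorem sv_ne_zero : (sv p (X : F[X])) ≠ 0 := by
  have hp : p.Prime := Fact.out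
  intro h
  have := natDegree_sv (F := F) p
  rw [h, natDegree_zero] at this
  exact hp.ne_zero this.symm

theorem natDegree_s1v : (s1v p (X : F[X]) (bS F p)).natDegree = (p + 1) * (p - 1) + p := by
  have hp : p.Prime := Fact.out
  rw [s1v, M_apply, bS]
  have e1 : ((X ^ (p + 1)) ^ (p - 1) * sv p (X : F[X])).natDegree = (p + 1) * (p - 1) + p := by
    rw [← pow_mul, natDegree_mul (pow_ne_zero _ X_ne_zero) (sv_ne_zero p), natDegree_X_pow,
      natDegree_sv]
  have e2 : (sv p (X : F[X]) ^ p).natDegree = p * p := by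
    rw [natDegree_pow, natDegree_sv]
  rw [natDegree_sub_eq_right_of_natDegree_lt, e1]
  rw [e1, e2]
  obtain ⟨q, rfl⟩ : ∃ q, p = q + 1 := ⟨p - 1, (Nat.sub_add_cancel hp.one_le).symm⟩
  have : 1 ≤ q := by have := hp.two_le; omega
  simp only [Nat.add_sub_cancel]
  nlinarith

theorem s1v_ne_zero : s1v p (X : F[X]) (bS F p) ≠ 0 := by
  have hp : p.Prime := Fact.out
  intro h
  have := natDegree_s1v (F := F) p
  rw [h, natDegree_zero] at this
  have h2 := hp.pos
  omega

theorem natCast_eq_C (j : ℕ) : ((j : ℕ) : F[X]) = C (j : F) := by simp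

/-- `D` has no root in `F[t]`. -/
theorem D_ne_zero (n : F[X]) : Dv p (X : F[X]) X (bS F p) n ≠ 0 := by
  have hp : p.Prime := Fact.out
  intro h
  obtain ⟨j, hj⟩ := dom_root p h
  -- `Ψ n = (1 + j) X + j Y`
  have hj' : Psi p X (bS F p) n =
      ((1 + j : ℕ) : F[X]) * Xv p X X (bS F p) + (j : F[X]) * Yv p X (bS F p) := by
    push_cast
    linear_combination hj
  have hX : ((1 + j : ℕ) : F[X]) * Xv p X X (bS F p) =
      M p (s1v p X (bS F p)) (M p (bS F p) (((1 + j : ℕ) : F[X]) * X)) := by
    rw [Xv, M_natMul, M_natMul]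
  by_cases hjF : (j : F) = 0
  · have hj0 : (j : F[X]) = 0 := by rw [natCast_eq_C j, hjF, map_zero]
    have h1 : M p (s1v p X (bS F p)) (M p (bS F p) (M p 1 n - X)) = 0 := by
      rw [map_sub, map_sub, ← Psi_apply, hj', hj0, zero_mul, add_zero]
      push_cast
      rw [hj0, add_zero, one_mul, Xv, sub_self]
    obtain ⟨l, hl⟩ := dom_root p h1
    have h2 : M p (bS F p) (M p 1 n - X - (l : F[X]) * sv p X) = 0 := by
      rw [map_sub, hl, M_natMul, ← s1v, sub_self]
    obtain ⟨m, hm⟩ := dom_root p h2
    have h3 : M p 1 (n - (l : F[X]) * X) = X + (m : F[X]) * bS F p := by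
      have hsv : M p 1 (X : F[X]) = sv p X := rfl
      rw [map_sub, M_natMul, hsv, ← hm]; ring
    by_cases hmF : (m : F) = 0
    · rw [natCast_eq_C m, hmF, map_zero, zero_mul, add_zero] at h3
      refine deg_obstruction p h3 ?_ ?_
      · simp
      · rw [natDegree_X, Nat.dvd_one]; exact hp.one_lt.ne'
    · have hdeg : (X + (m : F[X]) * bS F p).natDegree = p + 1 := by
        have e1 : ((m : F[X]) * bS F p).natDegree = p + 1 := by
          rw [natCast_eq_C m, bS, natDegree_C_mul_X_pow _ _ hmF]
        rw [natDegree_add_eq_right_of_natDegree_lt, e1]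
        rw [e1, natDegree_X]
        have := hp.pos
        omega
      refine deg_obstruction p h3 ?_ ?_
      · rw [hdeg]; simp
      · rw [hdeg]
        intro hd
        have h5 : p ∣ 1 := by simpa using hd
        exact hp.one_lt.ne' (Nat.dvd_one.1 h5)
  · have h1 : M p (s1v p X (bS F p)) (M p (bS F p) (M p 1 n - ((1 + j : ℕ) : F[X]) * X)
        - (j : F[X]) * ev p X (bS F p)) = (j : F[X]) * (s1v p X (bS F p) ^ p * bS F p) := by
      rw [map_sub, map_sub, map_sub, ← Psi_apply, hj', hX, M_natMul p _ j (ev p X (bS F p)), Yv]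
      ring
    have hdeg : ((j : F[X]) * (s1v p X (bS F p) ^ p * bS F p)).natDegree =
        p * (s1v p (X : F[X]) (bS F p)).natDegree + (p + 1) := by
      rw [natCast_eq_C j, natDegree_C_mul hjF, natDegree_mul (pow_ne_zero _ (s1v_ne_zero p))
        (by rw [bS]; exact pow_ne_zero _ X_ne_zero), natDegree_pow, bS, natDegree_X_pow]
    refine deg_obstruction p h1 ?_ ?_
    · rw [hdeg]; omega
    · rw [hdeg]
      intro hd
      have h4 : p ∣ p + 1 := (Nat.dvd_add_right (dvd_mul_right _ _)).1 hd
      have h5 : p ∣ 1 := by simpa using h4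
      exact hp.one_lt.ne' (Nat.dvd_one.1 h5)

end Pool.Agent.R521.PI
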