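import Mathlib
import Pool.Agent.R521.PI.NoRoot

set_option autoImplicit false

open Polynomial

namespace Pool.Agent.R521.PI

variable {F : Type*} [Field F] (p : ℕ) [Fact p.Prime] [CharP F p]

theorem finite_degreeLT [Finite F] (n : ℕ) : Finite (degreeLT F n) :=
  Finite.of_equiv (Fin n → F) (degreeLTEquiv F n).symm.toEquiv

theorem finite_quot [Finite F] {g : F[X]} (hg : g ≠ 0) : Finite (F[X] ⧸ Ideal.span {g}) := by
  have := finite_degreeLT (F := F) g.natDegree
  refine Finite.of_surjective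
    (fun x : degreeLT F g.natDegree => (Ideal.Quotient.mk (Ideal.span {g}) (x : F[X]))) ?_
  intro q
  obtain ⟨f, rfl⟩ := Ideal.Quotient.mk_surjective q
  refine ⟨⟨f % g, ?_⟩, ?_⟩
  · rw [mem_degreeLT, ← degree_eq_natDegree hg]
    exact EuclideanDomain.mod_lt f hg
  · rw [Ideal.Quotient.mk_eq_mk_iff_sub_mem, Ideal.mem_span_singleton]
    refine ⟨-(f / g), ?_⟩
    have := EuclideanDomain.mod_add_div f g
    linear_combination this

/-- Modulo a prime power the only solutions of `y ^ p = y` are the integers. -/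
theorem fixed_modPrimePow {π : F[X]} (hπ : Prime π) {i : ℕ} (hi : 1 ≤ i) {y : F[X]}
    (h : π ^ i ∣ y ^ p - y) : ∃ l : ℕ, l < p ∧ π ^ i ∣ y - (l : F[X]) := by
  have hp : p.Prime := Fact.out
  have hirr : Irreducible π := hπ.irreducible
  have hmax : (Ideal.span {π} : Ideal F[X]).IsMaximal :=
    PrincipalIdealRing.isMaximal_of_irreducible hirr
  let k := F[X] ⧸ (Ideal.span {π} : Ideal F[X])
  let _ : Field k := Ideal.Quotient.field _
  let f : F[X] →+* k := Ideal.Quotient.mk _
  have hker : ∀ x : F[X], f x = 0 ↔ π ∣ x := fun x => by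
    rw [Ideal.Quotient.eq_zero_iff_mem, Ideal.mem_span_singleton]
  have : CharP k p := charP_of_injective_ringHom (f.comp C).injective p
  have h1 : f y ^ p = f y := by
    have : f (y ^ p - y) = 0 := (hker _).2 ((dvd_pow_self π (by omega)).trans h)
    rw [map_sub, map_pow, sub_eq_zero] at this
    exact this
  have h3 := (Subfield.mem_bot_iff_pow_eq_self k p).2 h1
  rw [← ZMod.fieldRange_castHom_eq_bot p] at h3
  obtain ⟨j, hj⟩ := h3
  have h4 : (ZMod.castHom (dvd_refl p) k) j = ((j.val : ℕ) : k) := by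
    rw [ZMod.castHom_apply, ZMod.natCast_val]
  rw [h4] at hj
  refine ⟨j.val, ZMod.val_lt j, ?_⟩
  set l := j.val with hl
  have h5 : π ∣ y - (l : F[X]) := by
    rw [← hker, map_sub, map_natCast, ← hj, sub_self]
  have hlp : ((l : F[X])) ^ p = (l : F[X]) := by
    have := M_nat_self p (1 : F[X]) l
    rw [mul_one, M_apply, one_pow, one_mul, sub_eq_zero] at this
    exact this
  have h6 : (y - (l : F[X])) * ((y - (l : F[X])) ^ (p - 1) - 1) = y ^ p - y := by
    have e : (y - (l : F[X])) * (y - (l : F[X])) ^ (p - 1) = y ^ p - (l : F[X]) ^ p := by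
      rw [← pow_succ', Nat.sub_add_cancel hp.one_le, sub_pow_char]
    rw [mul_sub, e, hlp]; ring
  have h7 : IsCoprime π ((y - (l : F[X])) ^ (p - 1) - 1) := by
    rw [hirr.coprime_iff_not_dvd]
    intro hd
    have h8 : π ∣ (y - (l : F[X])) ^ (p - 1) :=
      h5.trans (dvd_pow_self _ (Nat.sub_ne_zero_of_lt hp.one_lt))
    have h9 : π ∣ 1 := by
      have := dvd_sub h8 hd
      simpa using this
    exact hirr.not_isUnit (isUnit_of_dvd_one h9)
  rw [← h6] at h
  exact (h7.pow_left).dvd_of_dvd_mul_right h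

theorem charP_quot {π : F[X]} (hπ : Prime π) {i : ℕ} (hi : 1 ≤ i) :
    CharP (F[X] ⧸ Ideal.span {π ^ i}) p := by
  have : Nontrivial (F[X] ⧸ Ideal.span {π ^ i}) := by
    rw [Ideal.Quotient.nontrivial_iff, Ne, Ideal.span_singleton_eq_top]
    exact fun h => hπ.not_unit ((isUnit_pow_iff (by omega)).1 h)
  exact charP_of_injective_ringHom
    ((Ideal.Quotient.mk (Ideal.span {π ^ i})).comp C).injective p

omit [Field F] [CharP F p] in
/-- In a finite commutative ring of characteristic `p` in which `y ^ p = y` has only the integer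
solutions: `b` or one of the `a + l b` is of the form `y ^ p - y`. -/
theorem local_solve_aux {Q : Type*} [CommRing Q] [Finite Q] [CharP Q p]
    (hfix : ∀ y : Q, y ^ p = y → ∃ l : ℕ, l < p ∧ y = (l : Q)) (a b : Q) :
    (∃ β : Q, β ^ p - β = b) ∨ ∃ (l : ℕ) (γ : Q), γ ^ p - γ = a + l * b := by
  have hp : p.Prime := Fact.out
  let f : Q →+ Q := M p 1
  have hf : ∀ y, f y = y ^ p - y := fun y => by
    change M p 1 y = _
    rw [M_apply, one_pow, one_mul]
  have hker : Nat.card f.ker ≤ p := by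
    have hs : ∀ y : f.ker, ∃ l : Fin p, (y : Q) = ((l : ℕ) : Q) := by
      intro ⟨y, hy⟩
      rw [AddMonoidHom.mem_ker, hf, sub_eq_zero] at hy
      obtain ⟨l, hl, hl2⟩ := hfix y hy
      exact ⟨⟨l, hl⟩, hl2⟩
    choose g hg using hs
    have hinj : Function.Injective g := by
      intro x y hxy
      apply Subtype.ext
      rw [hg x, hg y, hxy]
    have := Nat.card_le_card_of_injective g hinj
    simpa using this
  have hidx : Nat.card (Q ⧸ f.range) ≤ p := by
    have h1 : f.range.index = Nat.card f.ker := AddSubgroup.index_range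
    have h2 : Nat.card (Q ⧸ f.range) = f.range.index := rfl
    rw [h2, h1]; exact hker
  by_cases hb : b ∈ f.range
  · left
    obtain ⟨β, hβ⟩ := hb
    exact ⟨β, by rw [← hf, hβ]⟩
  · right
    let g : Fin p → Q ⧸ f.range := fun l => ((a + (l : ℕ) • b : Q) : Q ⧸ f.range)
    have hpb : (p : ℤ) • b = 0 := by
      rw [natCast_zsmul, nsmul_eq_mul, CharP.cast_eq_zero, zero_mul]
    have hginj : Function.Injective g := by
      intro l l' hll
      by_contra hne
      apply hb
      have h1 : ((l' : ℕ) : ℤ) - ((l : ℕ) : ℤ) ≠ 0 := by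
        intro h0
        apply hne
        apply Fin.ext
        omega
      have h2 : (((l' : ℕ) : ℤ) - ((l : ℕ) : ℤ)) • b ∈ f.range := by
        have h3 := (QuotientAddGroup.eq).1 hll
        have h4 : -(a + (l : ℕ) • b) + (a + (l' : ℕ) • b) =
            (((l' : ℕ) : ℤ) - ((l : ℕ) : ℤ)) • b := by
          rw [sub_zsmul, natCast_zsmul, natCast_zsmul]; abel
        rw [h4] at h3
        exact h3
      have h5 : IsCoprime (((l' : ℕ) : ℤ) - ((l : ℕ) : ℤ)) (p : ℤ) := by
        have hpi : Prime (p : ℤ) := Nat.prime_iff_prime_int.1 hp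
        rw [isCoprime_comm, hpi.irreducible.coprime_iff_not_dvd]
        intro hd
        have hl := l.2
        have hl' := l'.2
        rcases lt_or_gt_of_ne h1 with h7 | h7
        · have := Int.le_of_dvd (by omega) ((dvd_neg).2 hd)
          omega
        · have := Int.le_of_dvd h7 hd
          omega
      obtain ⟨u, v, huv⟩ := h5
      have h8 : b = u • ((((l' : ℕ) : ℤ) - ((l : ℕ) : ℤ)) • b) + v • ((p : ℤ) • b) := by
        rw [smul_smul, smul_smul, ← add_smul, huv, one_smul]
      rw [h8, hpb, smul_zero, add_zero]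
      exact AddSubgroup.zsmul_mem _ h2 _
    have hbij : Function.Bijective g := by
      apply hginj.bijective_of_nat_card_le
      simpa using hidx
    obtain ⟨l, hl⟩ := hbij.2 0
    have h9 : a + (l : ℕ) • b ∈ f.range := (QuotientAddGroup.eq_zero_iff _).1 hl
    obtain ⟨γ, hγ⟩ := h9
    refine ⟨l, γ, ?_⟩
    rw [← hf, hγ, nsmul_eq_mul]

/-- The polynomial map `D` has a root modulo every prime power. -/
theorem exists_root_primePow [Finite F] {π : F[X]} (hπ : Prime π) {i : ℕ} (hi : 1 ≤ i) :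
    ∃ n : F[X], π ^ i ∣ Dv p (X : F[X]) X (bS F p) n := by
  have hfin : Finite (F[X] ⧸ Ideal.span {π ^ i}) := finite_quot (pow_ne_zero _ hπ.ne_zero)
  have hchar := charP_quot p hπ hi
  let f : F[X] →+* F[X] ⧸ Ideal.span {π ^ i} := Ideal.Quotient.mk _
  have hker : ∀ x : F[X], f x = 0 ↔ π ^ i ∣ x := fun x => by
    rw [Ideal.Quotient.eq_zero_iff_mem, Ideal.mem_span_singleton]
  have hfix : ∀ y : F[X] ⧸ Ideal.span {π ^ i}, y ^ p = y →
      ∃ l : ℕ, l < p ∧ y = (l : F[X] ⧸ Ideal.span {π ^ i}) := by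
    intro y hy
    obtain ⟨y0, rfl⟩ := Ideal.Quotient.mk_surjective y
    have h1 : π ^ i ∣ y0 ^ p - y0 := by
      rw [← hker, map_sub, map_pow, sub_eq_zero]; exact hy
    obtain ⟨l, hl, hl2⟩ := fixed_modPrimePow p hπ hi h1
    refine ⟨l, hl, ?_⟩
    rw [← hker, map_sub, map_natCast, sub_eq_zero] at hl2
    exact hl2
  rcases local_solve_aux p hfix (f X) (f (bS F p)) with ⟨β, hβ⟩ | ⟨l, γ, hγ⟩
  · obtain ⟨β0, rfl⟩ := Ideal.Quotient.mk_surjective β
    refine ⟨-(X * β0), ?_⟩
    rw [← hker, map_D p f, map_neg, map_mul]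
    exact D_root_Y p (f X) (f X) (f (bS F p)) (f β0) hβ
  · obtain ⟨γ0, rfl⟩ := Ideal.Quotient.mk_surjective γ
    refine ⟨γ0, ?_⟩
    rw [← hker, map_D p f]
    exact D_root_X p (f X) (f X) (f (bS F p)) (f γ0) l hγ

theorem D_congr {R : Type*} [CommRing R] [CharP R p] (t a b : R) {g x y : R} (h : g ∣ x - y) :
    g ∣ Dv p t a b x - Dv p t a b y := by
  have hM : ∀ c x y : R, g ∣ x - y → g ∣ M p c x - M p c y := by
    intro c x y h
    rw [M_apply, M_apply]
    have e : x ^ p - c ^ (p - 1) * x - (y ^ p - c ^ (p - 1) * y) =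
        (x ^ p - y ^ p) - c ^ (p - 1) * (x - y) := by ring
    rw [e]
    exact dvd_sub (h.trans (sub_dvd_pow_sub_pow x y p)) (h.mul_left _)
  rw [Dv, Dv, Psi_apply, Psi_apply]
  apply hM
  rw [sub_sub_sub_cancel_right]
  exact hM _ _ _ (hM _ _ _ (hM _ _ _ h))

/-- The polynomial map `D` has a root modulo every nonzero polynomial. -/
theorem exists_root_mod [Finite F] (g : F[X]) :
    g ≠ 0 → ∃ n : F[X], g ∣ Dv p (X : F[X]) X (bS F p) n := by
  induction g using UniqueFactorizationMonoid.induction_on_coprime with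
  | h0 => exact fun h => absurd rfl h
  | h1 hx => exact fun _ => ⟨0, hx.dvd⟩
  | hpr i hπ =>
    intro _
    rcases Nat.eq_zero_or_pos i with hi | hi
    · exact ⟨0, by rw [hi, pow_zero]; exact one_dvd _⟩
    · exact exists_root_primePow p hπ hi
  | @hcp x y hxy ihx ihy =>
    intro h
    obtain ⟨n1, h1⟩ := ihx (left_ne_zero_of_mul h)
    obtain ⟨n2, h2⟩ := ihy (right_ne_zero_of_mul h)
    obtain ⟨u, v, huv⟩ := hxy.isCoprime
    refine ⟨n2 * (u * x) + n1 * (v * y), ?_⟩
    have e1 : x ∣ (n2 * (u * x) + n1 * (v * y)) - n1 := by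
      refine ⟨(n2 - n1) * u, ?_⟩
      linear_combination n1 * huv
    have e2 : y ∣ (n2 * (u * x) + n1 * (v * y)) - n2 := by
      refine ⟨(n1 - n2) * v, ?_⟩
      linear_combination n2 * huv
    refine hxy.isCoprime.mul_dvd ?_ ?_
    · have := D_congr p (X : F[X]) X (bS F p) e1
      exact (dvd_iff_dvd_of_dvd_sub this).2 h1
    · have := D_congr p (X : F[X]) X (bS F p) e2
      exact (dvd_iff_dvd_of_dvd_sub this).2 h2

end Pool.Agent.R521.PI
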