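import Mathlib
import Pool.Agent.R521.PI.Local

set_option autoImplicit false

open Polynomial Filter Topology

namespace Pool.Agent.R521.PI

section functional

theorem sep_aux {G : Type*} [AddCommGroup G] (p : ℕ) [Fact p.Prime] [Module (ZMod p) G]
    (A : G →+ G) (c : G) (hc : ∀ n, A n ≠ c) :
    ∃ φ : G →+ ZMod p, (∀ n, φ (A n) = 0) ∧ φ c ≠ 0 := by
  let V : Submodule (ZMod p) G := LinearMap.range (A.toZModLinearMap p)
  have hnot : c ∉ V := by
    rintro ⟨n, hn⟩
    exact hc n hn
  obtain ⟨f, hf, hf2⟩ := Submodule.exists_dual_map_eq_bot_of_notMem hnot inferInstance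
  refine ⟨f.toAddMonoidHom, fun n => ?_, hf⟩
  have : f (A n) ∈ V.map f := ⟨A n, ⟨n, rfl⟩, rfl⟩
  rw [hf2] at this
  simpa using this

/-- Separation of a point from the image of an additive endomorphism by a homomorphism to
`ℤ/p`. -/
theorem sep_functional {G : Type*} [AddCommGroup G] (p : ℕ) [Fact p.Prime]
    (hG : ∀ x : G, p • x = 0) (A : G →+ G) (c : G) (hc : ∀ n, A n ≠ c) :
    ∃ φ : G →+ ZMod p, (∀ n, φ (A n) = 0) ∧ φ c ≠ 0 := by
  let inst : Module (ZMod p) G := AddCommGroup.zmodModule hG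
  exact sep_aux p A c hc

variable {F : Type*} [Field F] (p : ℕ) [Fact p.Prime] [CharP F p]

/-- An additive functional that takes one nonzero value on all values of `D`. -/
theorem exists_functional :
    ∃ (φ : F[X] →+ ZMod p) (c : ZMod p), c ≠ 0 ∧
      ∀ n : F[X], φ (Dv p (X : F[X]) X (bS F p) n) = c := by
  let w : F[X] := Xv p X X (bS F p) + Yv p X (bS F p)
  let A : F[X] →+ F[X] := (M p w).comp (Psi p X (bS F p))
  let c0 : F[X] := M p w (Xv p X X (bS F p))
  have hD : ∀ n, Dv p (X : F[X]) X (bS F p) n = A n - c0 := by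
    intro n
    rw [Dv, map_sub]; rfl
  have hc : ∀ n, A n ≠ c0 := by
    intro n hn
    apply D_ne_zero p n
    rw [hD, hn, sub_self]
  obtain ⟨φ, h1, h2⟩ := sep_functional p
    (fun x : F[X] => by rw [nsmul_eq_mul, CharP.cast_eq_zero, zero_mul]) A c0 hc
  refine ⟨φ, -(φ c0), neg_ne_zero.2 h2, ?_⟩
  intro n
  rw [hD, map_sub, h1, zero_sub]

end functional

section degree

variable {R : Type*} [CommRing R] [IsDomain R] (p : ℕ) [Fact p.Prime] [CharP R p]

/-- The polynomial version of `M`. -/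
noncomputable def Mp (c : R) (f : R[X]) : R[X] := f ^ p - C (c ^ (p - 1)) * f

omit [IsDomain R] in
theorem eval_Mp (c : R) (f : R[X]) (n : R) : (Mp p c f).eval n = M p c (f.eval n) := by
  simp [Mp, M_apply]

omit [CharP R p] in
theorem natDegree_Mp (c : R) {f : R[X]} (hf : 0 < f.natDegree) :
    (Mp p c f).natDegree = p * f.natDegree := by
  have hp : p.Prime := Fact.out
  rw [Mp, natDegree_sub_eq_left_of_natDegree_lt, natDegree_pow]
  rw [natDegree_pow]
  refine (natDegree_C_mul_le _ _).trans_lt ?_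
  have := hp.two_le
  nlinarith

/-- The polynomial `D`. -/
noncomputable def Dp (t a b : R) : R[X] :=
  Mp p (Xv p t a b + Yv p t b)
    (Mp p (s1v p t b) (Mp p b (Mp p 1 X)) - C (Xv p t a b))

omit [IsDomain R] in
theorem eval_Dp (t a b n : R) : (Dp p t a b).eval n = Dv p t a b n := by
  rw [Dp, eval_Mp, eval_sub, eval_Mp, eval_Mp, eval_Mp, eval_X, eval_C, Dv, Psi_apply]

theorem natDegree_Dp (t a b : R) : 0 < (Dp p t a b).natDegree := by
  have hp : p.Prime := Fact.out
  have h0 : 0 < (X : R[X]).natDegree := by rw [natDegree_X]; exact one_pos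
  have h1 : 0 < (Mp p 1 (X : R[X])).natDegree := by
    rw [natDegree_Mp p 1 h0]; exact Nat.mul_pos hp.pos h0
  have h2 : 0 < (Mp p b (Mp p 1 (X : R[X]))).natDegree := by
    rw [natDegree_Mp p b h1]; exact Nat.mul_pos hp.pos h1
  have h3 : 0 < (Mp p (s1v p t b) (Mp p b (Mp p 1 (X : R[X])))).natDegree := by
    rw [natDegree_Mp p _ h2]; exact Nat.mul_pos hp.pos h2
  have h4 : 0 < (Mp p (s1v p t b) (Mp p b (Mp p 1 (X : R[X]))) - C (Xv p t a b)).natDegree := by
    rw [natDegree_sub_C]; exact h3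
  rw [Dp, natDegree_Mp p _ h4]
  exact Nat.mul_pos hp.pos h4

end degree

section density

variable {G : Type*} [AddCommGroup G]

/-- A Følner sequence in an abelian group. -/
def IsFolner (Φ : ℕ → Finset G) : Prop :=
  (∀ N, (Φ N).Nonempty) ∧
    ∀ a : G, Tendsto
      (fun N => ((symmDiff ((fun x => x + a) '' (Φ N : Set G)) (Φ N : Set G)).ncard : ℝ) /
        ((Φ N).card : ℝ))
      atTop (𝓝 0)

open Classical in
/-- The upper Banach density. -/
noncomputable def dstar (A : Set G) : ℝ :=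
  sSup {d : ℝ | ∃ Φ : ℕ → Finset G, IsFolner Φ ∧
    d = limsup (fun N => (((Φ N).filter (· ∈ A)).card : ℝ) / ((Φ N).card : ℝ)) atTop}

open Classical in
theorem ratio_le_one (A : Set G) (s : Finset G) :
    (((s.filter (· ∈ A)).card : ℝ) / (s.card : ℝ)) ≤ 1 := by
  apply div_le_one_of_le₀ _ (Nat.cast_nonneg _)
  exact_mod_cast Finset.card_filter_le _ _

open Classical in
theorem ratio_nonneg (A : Set G) (s : Finset G) :
    0 ≤ (((s.filter (· ∈ A)).card : ℝ) / (s.card : ℝ)) := by positivity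

open Classical in
theorem bdd_ratio (A : Set G) (Φ : ℕ → Finset G) :
    IsBoundedUnder (· ≤ ·) atTop
      (fun N => (((Φ N).filter (· ∈ A)).card : ℝ) / ((Φ N).card : ℝ)) :=
  isBoundedUnder_of ⟨1, fun N => ratio_le_one A (Φ N)⟩

open Classical in
theorem cobdd_ratio (A : Set G) (Φ : ℕ → Finset G) :
    IsCoboundedUnder (· ≤ ·) atTop
      (fun N => (((Φ N).filter (· ∈ A)).card : ℝ) / ((Φ N).card : ℝ)) :=
  IsBoundedUnder.isCoboundedUnder_le (isBoundedUnder_of ⟨0, fun N => ratio_nonneg A (Φ N)⟩)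

open Classical in
theorem bddAbove_dens (A : Set G) :
    BddAbove {d : ℝ | ∃ Φ : ℕ → Finset G, IsFolner Φ ∧
      d = limsup (fun N => (((Φ N).filter (· ∈ A)).card : ℝ) / ((Φ N).card : ℝ)) atTop} := by
  refine ⟨1, ?_⟩
  rintro d ⟨Φ, _, rfl⟩
  exact limsup_le_of_le (cobdd_ratio A Φ) (Eventually.of_forall fun N => ratio_le_one A (Φ N))

open Classical in
theorem card_ker_ge (p : ℕ) [Fact p.Prime] (φ : G →+ ZMod p) (K : AddSubgroup G)
    (Φ : Finset G) (hΦ : ∀ x, x ∈ Φ ↔ x ∈ K) :
    Φ.card ≤ (Φ.filter (· ∈ {x : G | φ x = 0})).card * p := by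
  have h0 : ∀ b ∈ (Finset.univ : Finset (ZMod p)),
      (Φ.filter (fun a => φ a = b)).card ≤ (Φ.filter (· ∈ {x : G | φ x = 0})).card := by
    intro b _
    by_cases hne : (Φ.filter (fun a => φ a = b)).Nonempty
    · obtain ⟨x0, hx0⟩ := hne
      rw [Finset.mem_filter] at hx0
      apply Finset.card_le_card_of_injOn (fun x => x - x0)
      · intro x hx
        have hx' := Finset.mem_filter.1 (Finset.mem_coe.1 hx)
        apply Finset.mem_coe.2
        rw [Finset.mem_filter]
        refine ⟨(hΦ _).2 (K.sub_mem ((hΦ _).1 hx'.1) ((hΦ _).1 hx0.1)), ?_⟩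
        change φ (x - x0) = 0
        rw [map_sub, hx'.2, hx0.2, sub_self]
      · intro x _ y _ hxy
        exact sub_left_injective hxy
    · rw [Finset.not_nonempty_iff_eq_empty] at hne
      rw [hne, Finset.card_empty]
      exact Nat.zero_le _
  have h1 := Finset.card_le_mul_card_image_of_maps_to (f := φ) (s := Φ)
    (t := (Finset.univ : Finset (ZMod p))) (fun _ _ => Finset.mem_univ _)
    (Φ.filter (· ∈ {x : G | φ x = 0})).card h0
  rw [Finset.card_univ, ZMod.card] at h1
  exact h1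

/-- An exhausting sequence of finite subgroups is a Følner sequence. -/
theorem isFolner_of_subgroups (K : ℕ → AddSubgroup G) (Φ : ℕ → Finset G)
    (hΦ : ∀ N x, x ∈ Φ N ↔ x ∈ K N) (hex : ∀ x : G, ∀ᶠ N in atTop, x ∈ K N) : IsFolner Φ := by
  refine ⟨fun N => ⟨0, (hΦ N 0).2 (K N).zero_mem⟩, fun a => ?_⟩
  apply tendsto_const_nhds.congr'
  filter_upwards [hex a] with N hN
  have himg : (fun x => x + a) '' (Φ N : Set G) = (Φ N : Set G) := by
    ext x
    simp only [Set.mem_image, Finset.mem_coe, hΦ]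
    constructor
    · rintro ⟨y, hy, rfl⟩
      exact (K N).add_mem hy hN
    · intro hx
      exact ⟨x - a, (K N).sub_mem hx hN, sub_add_cancel x a⟩
  rw [himg, symmDiff_self, Set.bot_eq_empty, Set.ncard_empty, Nat.cast_zero, zero_div]

open Classical in
theorem dstar_ge (A : Set G) (Φ : ℕ → Finset G) (hΦ : IsFolner Φ) (δ : ℝ)
    (h : ∀ N, δ * ((Φ N).card : ℝ) ≤ (((Φ N).filter (· ∈ A)).card : ℝ)) : δ ≤ dstar A := by
  have hratio : ∀ N, δ ≤ (((Φ N).filter (· ∈ A)).card : ℝ) / ((Φ N).card : ℝ) := by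
    intro N
    have hpos : (0 : ℝ) < ((Φ N).card : ℝ) := by exact_mod_cast Finset.card_pos.2 (hΦ.1 N)
    rw [le_div_iff₀ hpos]
    exact h N
  have h1 : δ ≤ limsup
      (fun N => (((Φ N).filter (· ∈ A)).card : ℝ) / ((Φ N).card : ℝ)) atTop :=
    le_limsup_of_frequently_le (Eventually.of_forall hratio).frequently (bdd_ratio A Φ)
  exact h1.trans (le_csSup (bddAbove_dens A) ⟨Φ, hΦ, rfl⟩)

open Classical in
/-- The kernel of a homomorphism to `ℤ/p` has positive upper Banach density if the group is an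
increasing union of finite subgroups. -/
theorem dstar_ker_pos (p : ℕ) [Fact p.Prime] (φ : G →+ ZMod p) (K : ℕ → AddSubgroup G)
    (Φ : ℕ → Finset G) (hΦ : ∀ N x, x ∈ Φ N ↔ x ∈ K N) (hex : ∀ x : G, ∀ᶠ N in atTop, x ∈ K N) :
    0 < dstar {x : G | φ x = 0} := by
  have hp : p.Prime := Fact.out
  have hp0 : (0 : ℝ) < (p : ℝ) := by exact_mod_cast hp.pos
  have h2 : (0 : ℝ) < 1 / (p : ℝ) := one_div_pos.2 hp0
  refine lt_of_lt_of_le h2 (dstar_ge _ Φ (isFolner_of_subgroups K Φ hΦ hex) _ ?_)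
  intro N
  have hcard := card_ker_ge p φ (K N) (Φ N) (hΦ N)
  rw [one_div, inv_mul_le_iff₀ hp0, mul_comm]
  refine le_trans (Nat.cast_le.2 hcard) (le_of_eq ?_)
  push_cast
  congr!

end density

section main

/-- Condition (i): common roots modulo every nonzero ideal. -/
def CondI {R : Type*} [CommRing R] {k : ℕ} (P : Fin k → R[X]) : Prop :=
  ∀ I : Ideal R, I ≠ ⊥ → ∃ n : R, ∀ i, (P i).eval n ∈ I

/-- Condition (ii): recurrence. -/
def CondII {R : Type*} [CommRing R] {k : ℕ} (P : Fin k → R[X]) : Prop :=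
  ∀ A : Set R, 0 < dstar A → ∃ x n : R, x ∈ A ∧ ∀ i, x + (P i).eval n ∈ A

/-- The counterexample, for every ring isomorphic to `F[t]`. -/
theorem main {F : Type*} [Field F] [Finite F] {R : Type*} [CommRing R] [IsDomain R]
    (e : F[X] ≃+* R) (k : ℕ) (hk : 1 ≤ k) :
    ∃ P : Fin k → R[X], (∀ i, 0 < (P i).natDegree) ∧ Function.Injective P ∧
      CondI P ∧ ¬ CondII P := by
  obtain ⟨p, hchar⟩ := CharP.exists F
  have hp : p.Prime := CharP.char_is_prime F p
  have : Fact p.Prime := ⟨hp⟩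
  have hcharS : CharP F[X] p := inferInstance
  have hcharR : CharP R p :=
    charP_of_injective_ringHom (f := (e : F[X] →+* R)) e.injective p
  let D : R[X] := Dp p (e X) (e X) (e (bS F p))
  have hDdeg : 0 < D.natDegree := natDegree_Dp p _ _ _
  have hD0 : D ≠ 0 := fun h => by rw [h, natDegree_zero] at hDdeg; exact lt_irrefl _ hDdeg
  have hDeval : ∀ n : F[X], D.eval (e n) = e (Dv p X X (bS F p) n) := by
    intro n
    rw [eval_Dp]
    exact (map_D p (e : F[X] →+* R) X X (bS F p) n).symm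
  refine ⟨fun i => D * X ^ (i : ℕ), ?_, ?_, ?_, ?_⟩
  · intro i
    rw [natDegree_mul hD0 (pow_ne_zero _ X_ne_zero)]
    omega
  · intro i j hij
    have h := congrArg natDegree hij
    simp only [natDegree_mul hD0 (pow_ne_zero _ X_ne_zero), natDegree_X_pow] at h
    exact Fin.ext (by omega)
  · intro I hI
    obtain ⟨r, hr, hr0⟩ := Submodule.exists_mem_ne_zero_of_ne_bot hI
    have hg : e.symm r ≠ 0 := fun h => hr0 (by rw [← e.apply_symm_apply r, h, map_zero])
    obtain ⟨n, hn⟩ := exists_root_mod p (e.symm r) hg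
    refine ⟨e n, fun i => ?_⟩
    rw [eval_mul, hDeval]
    apply I.mul_mem_right
    obtain ⟨q, hq⟩ := hn
    rw [hq, map_mul, e.apply_symm_apply]
    exact I.mul_mem_right _ hr
  · intro hII
    obtain ⟨φ, c, hc, hφ⟩ := exists_functional (F := F) p
    let ψ : R →+ ZMod p := φ.comp (e.symm : R →+* F[X]).toAddMonoidHom
    have hψ : ∀ x, ψ x = φ (e.symm x) := fun _ => rfl
    let K : ℕ → AddSubgroup R := fun N =>
      ((degreeLT F N).toAddSubgroup).comap (e.symm : R →+* F[X]).toAddMonoidHom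
    have hK : ∀ N x, x ∈ K N ↔ e.symm x ∈ degreeLT F N := fun _ _ => Iff.rfl
    have hfin : ∀ N, (K N : Set R).Finite := by
      intro N
      have h1 : Finite (degreeLT F N) := finite_degreeLT N
      have h2 : Function.Injective
          (fun x : (K N : Set R) => (⟨e.symm x.1, x.2⟩ : degreeLT F N)) := by
        intro x y hxy
        apply Subtype.ext
        exact e.symm.injective (congrArg Subtype.val hxy)
      have h3 : Finite (K N : Set R) := Finite.of_injective _ h2
      exact Set.toFinite _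
    have hpos := dstar_ker_pos p ψ K (fun N => (hfin N).toFinset)
      (fun N x => by rw [Set.Finite.mem_toFinset]; rfl)
      (fun x => by
        filter_upwards [eventually_gt_atTop (e.symm x).natDegree] with N hN
        rw [hK, mem_degreeLT]
        exact (degree_le_natDegree).trans_lt (by exact_mod_cast hN))
    obtain ⟨x, n, hx, hxn⟩ := hII _ hpos
    have h1 := hxn ⟨0, hk⟩
    simp only [pow_zero, mul_one, Set.mem_setOf_eq, map_add] at h1 hx
    rw [hx, zero_add, ← e.apply_symm_apply n, hDeval, hψ, e.symm_apply_apply, hφ] at h1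
    exact hc h1

end main

end Pool.Agent.R521.PI
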